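import Pool.Agent.V5helper52.PT.Stm

/-!
# Project PT, job RED: reduction to a torus of small dimension, several Laurent polynomials
-/

set_option autoImplicit false
set_option maxHeartbeats 400000

open CategoryTheory AlgebraicGeometry Pool.Agent.Y116.UV Pool.Agent.V5helper52.SF
  Pool.Agent.V5helper52.TR Pool.Agent.V5helper52.FW

namespace Pool.Agent.V5helper23.PT

/-- RED -/
theorem t_RED : Pool.Agent.V5helper52.PT.S_RED := by
  classical
  intro k _ P hP T _ _ ρ v hv
  obtain ⟨β, hβ, E, j, hE, hinj, hfin, h1, h2, h3⟩ := exists_emb v hv
  let pr : (Fin ρ ⊕ β → ℤ) →+ (Fin ρ → ℤ) :=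
    { toFun := fun x i => x (Sum.inl i)
      map_zero' := rfl
      map_add' := fun _ _ => rfl }
  let ι : (Fin ρ → ℤ) →+ (Fin ρ ⊕ β → ℤ) :=
    { toFun := fun x => Sum.elim x 0
      map_zero' := by
        funext x
        rcases x with x | x <;> rfl
      map_add' := fun x y => by
        funext z
        rcases z with z | z
        · rfl
        · exact (add_zero (0 : ℤ)).symm }
  have hι : ∀ m : T → ℤ, qv m ∈ Submodule.span ℚ (Set.range fun i => qv (v i)) →
      j m = ι (pr (j m)) := by
    intro m hm
    funext x
    rcases x with x | x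
    · rfl
    · exact h3 m hm x
  refine ⟨E, pr.comp j, hE, ?_, ?_⟩
  · intro i
    funext i'
    change j (v i) (Sum.inl i') = _
    rw [h2, Pi.smul_apply, Pi.single_apply]
    by_cases h : i = i'
    · rw [if_pos h, if_pos h.symm]
      simp
    · rw [if_neg h, if_neg (Ne.symm h)]
      simp
  · intro κ f hf hg
    refine p_cover hinj hP _ inferInstance ?_
    have hf' : ∀ l, md k j (f l) = md k ι (md k (pr.comp j) (f l)) := by
      intro l
      rw [← md_comp]
      exact md_congr (f l) fun m hm => hι m (hf l m hm)
    obtain ⟨b, ⟨eb⟩⟩ := Finite.exists_equiv_fin β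
    let e : (Fin b → ℤ) × (Fin ρ → ℤ) ≃+ (Fin ρ ⊕ β → ℤ) :=
      { toFun := fun x => Sum.elim x.2 (fun y => x.1 (eb y))
        invFun := fun x => (fun y => x (Sum.inr (eb.symm y)), fun i => x (Sum.inl i))
        left_inv := fun x => by
          refine Prod.ext ?_ rfl
          funext y
          exact congrArg x.1 (eb.apply_symm_apply y)
        right_inv := fun x => by
          funext y
          rcases y with y | y
          · rfl
          · exact congrArg (fun z => x (Sum.inr z)) (eb.symm_apply_apply y)
        map_add' := fun x y => by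
          funext z
          rcases z with z | z <;> rfl }
    have h4 := p_split (loc_of_bnd hP.toBnd) (N := Fin ρ → ℤ) inferInstance e
      (Ideal.span (Set.range fun l => md k (pr.comp j) (f l))) ι (fun n => by
        funext z
        rcases z with z | z <;> rfl) hg
    have h5 : Ideal.map (md k j) (Ideal.span (Set.range f)) =
        Ideal.map (md k ι) (Ideal.span (Set.range fun l => md k (pr.comp j) (f l))) := by
      rw [Ideal.map_span, Ideal.map_span, ← Set.range_comp, ← Set.range_comp]
      congr 2
      funext l
      exact hf' l
    rw [h5]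
    exact h4

end Pool.Agent.V5helper23.PT
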